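import Pool.Agent.H41.Brw

set_option autoImplicit false

open MeasureTheory Filter Pool.Agent.H41.Brw
open scoped Topology ENNReal

theorem Pool.Agent.Results.MP_96db20_pr.Fails.result :
    ∃ (G : Type) (_ : Group G) (_ : Infinite G) (_ : Group.FG G) (_ : MeasurableSpace G)
      (_ : DiscreteMeasurableSpace G) (μ : PMF G) (π : PMF ℕ),
      μ.support.Finite ∧ π 0 = 0 ∧ π.support.Finite ∧ ∑' k : ℕ, (k : ℝ≥0∞) * π k = 2 ∧
      Tendsto (fun n : ℕ => renyi 0 (fun g => (convPow μ n g).toReal) / n) atTop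
        (𝓝 (Real.log 2)) ∧
      ∀ᵐ ω ∂(law π μ), ∀ᶠ n : ℕ in atTop, renyi 0 (emp ω n) / n ≤ Real.log (19 / 10) := by
  refine ⟨F, inferInstance, inferInstance, inferInstance, inferInstance, inferInstance, mu,
    PMF.pure 2, ?_, by simp, by simp, ?_, h0, main⟩
  · refine (Set.finite_range (FreeGroup.of : Bool → F)).subset fun g hg => ?_
    obtain ⟨b, rfl⟩ := (mu_supp g).1 hg
    exact ⟨b, rfl⟩
  · rw [tsum_eq_single 2 fun k hk => by simp [PMF.pure_apply, hk]]
    simp
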